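import Mathlib

/-!
# Ternary forms: dimension, divisibility by a form
(dimension count as in a starting file)
-/

set_option autoImplicit false

open MvPolynomial

namespace Pool.Agent.W52.PC

/-- dimension of the space of ternary forms of degree `n` -/
theorem finrank_forms (k : Type) [Field k] (n : ℕ) :
    Module.finrank k (homogeneousSubmodule (Fin 3) k n) = (n + 2).choose 2 ∧
    Module.Finite k (homogeneousSubmodule (Fin 3) k n) := by
  classical
  let S : Finset (Fin 3 →₀ ℕ) := Finset.univ.finsuppAntidiag n
  have hS : ∀ e : Fin 3 →₀ ℕ, e ∈ S ↔ e.degree = n := by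
    intro e
    rw [Finset.mem_finsuppAntidiag]
    simp [Finsupp.degree_eq_sum]
  let f : homogeneousSubmodule (Fin 3) k n →ₗ[k] (S → k) :=
    { toFun := fun p e => coeff e.1 p.1
      map_add' := fun p q => by funext e; simp
      map_smul' := fun c p => by funext e; simp }
  have hinj : Function.Injective f := by
    rw [← LinearMap.ker_eq_bot, LinearMap.ker_eq_bot']
    rintro ⟨p, hp⟩ h
    apply Subtype.ext
    show p = 0
    ext e
    rw [coeff_zero]
    by_cases he : e.degree = n
    · exact congrFun h ⟨e, (hS e).2 he⟩
    · exact MvPolynomial.IsHomogeneous.coeff_eq_zero hp he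
  have hsurj : Function.Surjective f := by
    intro g
    have hp : (∑ e : S, monomial e.1 (g e)) ∈ homogeneousSubmodule (Fin 3) k n :=
      Submodule.sum_mem _ fun e _ => isHomogeneous_monomial _ ((hS e.1).1 e.2)
    refine ⟨⟨_, hp⟩, ?_⟩
    funext e
    show coeff e.1 (∑ e : S, monomial e.1 (g e)) = g e
    rw [coeff_sum]
    simp only [coeff_monomial]
    rw [Finset.sum_eq_single e]
    · simp
    · intro b _ hb
      rw [if_neg]
      exact fun h => hb (Subtype.ext h)
    · intro h; exact absurd (Finset.mem_univ _) h
  refine ⟨?_, Module.Finite.equiv (LinearEquiv.ofBijective f ⟨hinj, hsurj⟩).symm⟩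
  rw [(LinearEquiv.ofBijective f ⟨hinj, hsurj⟩).finrank_eq, Module.finrank_fintype_fun_eq_card,
    Fintype.card_coe, Finset.card_finsuppAntidiag_nat_eq_choose, Finset.card_univ, Fintype.card_fin]
  rw [show 3 + n - 1 = n + 2 by omega]
  exact Nat.choose_symm_of_eq_add rfl

variable {σ R : Type*} [CommRing R]

/-- the component of a product with a form -/
theorem comp_mul {F : MvPolynomial σ R} {a : ℕ} (hF : F.IsHomogeneous a) (Q : MvPolynomial σ R)
    (b : ℕ) : homogeneousComponent (a + b) (F * Q) = F * homogeneousComponent b Q := by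
  classical
  conv_lhs => rw [← sum_homogeneousComponent Q, Finset.mul_sum, map_sum]
  have h : ∀ i ∈ Finset.range (Q.totalDegree + 1),
      homogeneousComponent (a + b) (F * homogeneousComponent i Q) =
        if i = b then F * homogeneousComponent b Q else 0 := by
    intro i _
    have h1 : F * homogeneousComponent i Q ∈ homogeneousSubmodule σ R (a + i) :=
      hF.mul (homogeneousComponent_isHomogeneous i Q)
    rw [homogeneousComponent_of_mem h1]
    by_cases hib : i = b
    · subst hib; simp
    · rw [if_neg (by omega), if_neg hib]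
  rw [Finset.sum_congr rfl h, Finset.sum_ite_eq']
  split_ifs with h2
  · rfl
  · rw [homogeneousComponent_eq_zero]
    · simp
    · simp only [Finset.mem_range, not_lt] at h2; omega

/-- a form divisible by a form is a multiple by a form -/
theorem exists_form {F G : MvPolynomial σ R} {a b : ℕ} (hF : F.IsHomogeneous a)
    (hG : G.IsHomogeneous (a + b)) (h : F ∣ G) :
    ∃ Q : MvPolynomial σ R, Q.IsHomogeneous b ∧ G = F * Q := by
  obtain ⟨Q, rfl⟩ := h
  refine ⟨homogeneousComponent b Q, homogeneousComponent_isHomogeneous b Q, ?_⟩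
  rw [← comp_mul hF, homogeneousComponent_eq_self hG]

/-- a form of small degree divisible by a form vanishes -/
theorem eq_zero_of_dvd {F G : MvPolynomial σ R} {a b : ℕ} (hF : F.IsHomogeneous a)
    (hG : G.IsHomogeneous b) (hab : b < a) (h : F ∣ G) : G = 0 := by
  classical
  obtain ⟨Q, rfl⟩ := h
  rw [← homogeneousComponent_eq_self hG]
  conv_lhs => rw [← sum_homogeneousComponent Q, Finset.mul_sum, map_sum]
  refine Finset.sum_eq_zero fun i _ => ?_
  have h1 : F * homogeneousComponent i Q ∈ homogeneousSubmodule σ R (a + i) :=
    hF.mul (homogeneousComponent_isHomogeneous i Q)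
  rw [homogeneousComponent_of_mem h1, if_neg (by omega)]

end Pool.Agent.W52.PC
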