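import Pool.Agent.W518.PC.Stmts2
import Pool.Agent.W52.PC.Forms

/-! PC-N0 (MP_571cb2_ag): change of coordinates -/

set_option autoImplicit false

open MvPolynomial

namespace Pool.Agent.W52.PC

open Pool.Agent.W518.PC Pool.Agent.Helper395.CS

/-- an invertible matrix with given last column -/
theorem exists_mat {p : Fin 3 → ℂ} (hp : p ≠ 0) : ∃ A B : Matrix (Fin 3) (Fin 3) ℂ,
    A * B = 1 ∧ B * A = 1 ∧ ∀ i, A i 2 = p i := by
  have key : ∃ A : Matrix (Fin 3) (Fin 3) ℂ, A.det ≠ 0 ∧ ∀ i, A i 2 = p i := by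
    obtain ⟨k, hk⟩ := Function.ne_iff.1 hp
    rw [Pi.zero_apply] at hk
    fin_cases k
    · refine ⟨!![0, 0, p 0; 1, 0, p 1; 0, 1, p 2], ?_, ?_⟩
      · rw [Matrix.det_fin_three]; simpa using hk
      · intro i; fin_cases i <;> rfl
    · refine ⟨!![1, 0, p 0; 0, 0, p 1; 0, 1, p 2], ?_, ?_⟩
      · rw [Matrix.det_fin_three]; simpa using hk
      · intro i; fin_cases i <;> rfl
    · refine ⟨!![1, 0, p 0; 0, 1, p 1; 0, 0, p 2], ?_, ?_⟩
      · rw [Matrix.det_fin_three]; simpa using hk
      · intro i; fin_cases i <;> rfl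
  obtain ⟨A, hA, hA2⟩ := key
  have hu : IsUnit A.det := isUnit_iff_ne_zero.2 hA
  exact ⟨A, A⁻¹, Matrix.mul_nonsing_inv A hu, Matrix.nonsing_inv_mul A hu, hA2⟩

/-- the substitution `x ↦ M x` -/
noncomputable def th (M : Matrix (Fin 3) (Fin 3) ℂ) :
    MvPolynomial (Fin 3) ℂ →ₐ[ℂ] MvPolynomial (Fin 3) ℂ :=
  aeval fun i => ∑ j, C (M i j) * X j

theorem th_X (M : Matrix (Fin 3) (Fin 3) ℂ) (i : Fin 3) : th M (X i) = ∑ j, C (M i j) * X j := by
  rw [th, aeval_X]

theorem th_th {A B : Matrix (Fin 3) (Fin 3) ℂ} (h : A * B = 1) (G : MvPolynomial (Fin 3) ℂ) :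
    th B (th A G) = G := by
  have : (th B).comp (th A) = AlgHom.id ℂ _ := by
    apply MvPolynomial.algHom_ext
    intro i
    rw [AlgHom.comp_apply, th_X, map_sum, AlgHom.id_apply]
    have h1 : ∀ j, th B (C (A i j) * X j) = ∑ k, C (A i j * B j k) * X k := by
      intro j
      rw [map_mul, th_X, Finset.mul_sum]
      refine Finset.sum_congr rfl fun k _ => ?_
      rw [show (C (A i j) : MvPolynomial (Fin 3) ℂ) = algebraMap ℂ _ (A i j) from rfl,
        AlgHom.commutes, C_mul, ← algebraMap_eq]
      ring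
    simp_rw [h1]
    rw [Finset.sum_comm]
    simp_rw [← Finset.sum_mul, ← map_sum]
    have h2 : ∀ k, ∑ j, A i j * B j k = (1 : Matrix (Fin 3) (Fin 3) ℂ) i k := by
      intro k; rw [← h]; rfl
    simp_rw [h2]
    rw [Finset.sum_eq_single i]
    · simp
    · intro k _ hk; rw [Matrix.one_apply_ne hk.symm]; simp
    · simp
  exact DFunLike.congr_fun this G

theorem th_hom {M : Matrix (Fin 3) (Fin 3) ℂ} {G : MvPolynomial (Fin 3) ℂ} {d : ℕ}
    (hG : G.IsHomogeneous d) : (th M G).IsHomogeneous d := by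
  have := hG.aeval (n := 1) (fun i => ∑ j, C (M i j) * X j) (fun i =>
    IsHomogeneous.sum _ _ _ fun j _ => isHomogeneous_C_mul_X _ _)
  rwa [one_mul] at this

theorem aeval_th {R : Type*} [CommRing R] [Algebra ℂ R] (M : Matrix (Fin 3) (Fin 3) ℂ)
    (c : Fin 3 → R) (G : MvPolynomial (Fin 3) ℂ) :
    aeval c (th M G) = aeval (fun i => ∑ j, M i j • c j) G := by
  have : (aeval c).comp (th M) = aeval (fun i => ∑ j, M i j • c j) := by
    apply MvPolynomial.algHom_ext
    intro i
    rw [AlgHom.comp_apply, th_X, map_sum, aeval_X]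
    refine Finset.sum_congr rfl fun j _ => ?_
    rw [map_mul, aeval_X, ← algebraMap_eq, AlgHom.commutes, Algebra.smul_def]
  exact DFunLike.congr_fun this G

theorem eval_th (M : Matrix (Fin 3) (Fin 3) ℂ) (q : Fin 3 → ℂ) (G : MvPolynomial (Fin 3) ℂ) :
    eval q (th M G) = eval (fun i => ∑ j, M i j * q j) G := by
  have := aeval_th M q G
  rwa [aeval_eq_eval, aeval_eq_eval] at this

/-- the chain rule -/
theorem pderiv_th (M : Matrix (Fin 3) (Fin 3) ℂ) (G : MvPolynomial (Fin 3) ℂ) (j : Fin 3) :
    pderiv j (th M G) = ∑ i, C (M i j) * th M (pderiv i G) := by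
  induction G using MvPolynomial.induction_on with
  | C a =>
    rw [← algebraMap_eq, AlgHom.commutes, algebraMap_eq, pderiv_C]
    simp
  | add p q hp hq =>
    rw [map_add, map_add, hp, hq, ← Finset.sum_add_distrib]
    refine Finset.sum_congr rfl fun i _ => ?_
    rw [map_add, map_add]; ring
  | mul_X p k hp =>
    rw [map_mul, Derivation.leibniz, hp, th_X]
    have h1 : pderiv j (∑ l, C (M k l) * X l : MvPolynomial (Fin 3) ℂ) = C (M k j) := by
      rw [map_sum, Finset.sum_eq_single j]
      · rw [pderiv_C_mul, pderiv_X_self, mul_one]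
      · intro l _ hl
        rw [pderiv_C_mul, pderiv_X_of_ne hl, mul_zero]
      · simp
    rw [h1]
    have h2 : ∀ i, C (M i j) * th M (pderiv i (p * X k)) =
        (∑ l, C (M k l) * X l) * (C (M i j) * th M (pderiv i p)) +
        (if i = k then th M p * C (M k j) else 0) := by
      intro i
      rw [Derivation.leibniz, smul_eq_mul, smul_eq_mul, map_add, map_mul, map_mul, th_X]
      by_cases hik : i = k
      · subst hik
        rw [pderiv_X_self, map_one, if_pos rfl]; ring
      · rw [pderiv_X_of_ne (Ne.symm hik), map_zero, if_neg hik]; ring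
    simp_rw [h2]
    rw [Finset.sum_add_distrib, ← Finset.mul_sum, Finset.sum_ite_eq' Finset.univ k,
      if_pos (Finset.mem_univ _), smul_eq_mul, smul_eq_mul]
    ring

theorem val_smul_le {K : Type} [Field K] [Algebra ℂ K] (v : Point K) (a : ℂ) (x : K) :
    v.val (a • x) ≤ v.val x := by
  by_cases ha : a = 0
  · rw [ha, zero_smul, map_zero]; exact zero_le
  · rw [Algebra.smul_def, map_mul, v.const a ha, one_mul]

theorem val_comb_le {K : Type} [Field K] [Algebra ℂ K] (v : Point K)
    (M : Matrix (Fin 3) (Fin 3) ℂ) (c : Fin 3 → K) {b : WithZero (Multiplicative ℤ)}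
    (h : ∀ j, v.val (c j) ≤ b) (i : Fin 3) : v.val (∑ j, M i j • c j) ≤ b :=
  v.val.map_sum_le fun j _ => (val_smul_le v _ _).trans (h j)

theorem val_comb_lt {K : Type} [Field K] [Algebra ℂ K] (v : Point K)
    (M : Matrix (Fin 3) (Fin 3) ℂ) (c : Fin 3 → K) {b : WithZero (Multiplicative ℤ)}
    (hb : b ≠ 0)
    (h : ∀ j, v.val (c j) < b) (i : Fin 3) : v.val (∑ j, M i j • c j) < b :=
  v.val.map_sum_lt hb fun j _ => (val_smul_le v _ _).trans_lt (h j)

theorem comb_inv {K : Type} [Field K] [Algebra ℂ K] {A B : Matrix (Fin 3) (Fin 3) ℂ}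
    (h : A * B = 1) (c : Fin 3 → K) (i : Fin 3) :
    ∑ j, A i j • (∑ k, B j k • c k) = c i := by
  have h2 : ∀ k, ∑ j, A i j * B j k = (1 : Matrix (Fin 3) (Fin 3) ℂ) i k := by
    intro k; rw [← h]; rfl
  simp_rw [Finset.smul_sum, smul_smul]
  rw [Finset.sum_comm]
  simp_rw [← Finset.sum_smul, h2]
  rw [Finset.sum_eq_single i]
  · simp
  · intro k _ hk; rw [Matrix.one_apply_ne hk.symm]; simp
  · simp

theorem s_N0 : S_N0 := by
  intro K _ _ δ F c hδ hC p hp
  have hp0 : p ≠ 0 := by
    rintro rfl
    apply hp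
    rw [eval_zero, constantCoeff_eq]
    refine hC.homog.coeff_eq_zero ?_
    rw [map_zero]; omega
  obtain ⟨A, B, hAB, hBA, hA2⟩ := exists_mat hp0
  set u : ℂ := (eval p F)⁻¹ with hu
  have hu0 : u ≠ 0 := inv_ne_zero hp
  have hunit : IsUnit (C u : MvPolynomial (Fin 3) ℂ) := (isUnit_iff_ne_zero.2 hu0).map C
  have hbij : Function.Bijective (th A) := by
    refine Function.bijective_iff_has_inverse.2 ⟨th B, fun G => th_th hAB G, fun G => th_th hBA G⟩
  let eA : MvPolynomial (Fin 3) ℂ ≃ₐ[ℂ] MvPolynomial (Fin 3) ℂ := AlgEquiv.ofBijective (th A) hbij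
  have hc : ∀ i, ∑ j, A i j • (∑ k, B j k • c k) = c i := comb_inv hAB c
  have hev : ∀ G, aeval (fun i => ∑ j, B i j • c j) G = aeval c (th B G) := fun G =>
    (aeval_th B c G).symm
  have hpd : ∀ j, pderiv j (C u * th A F) = C u * ∑ i, C (A i j) * th A (pderiv i F) := by
    intro j; rw [pderiv_C_mul, pderiv_th]
  refine ⟨C u * th A F, fun i => ∑ j, B i j • c j, ?_, ?_, ?_, ?_, ?_⟩
  · refine ⟨?_, ?_, ?_, ?_, ?_⟩
    · -- homog
      have := (isHomogeneous_C (Fin 3) u).mul (th_hom (M := A) hC.homog)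
      rwa [zero_add] at this
    · -- irred
      rw [irreducible_isUnit_mul hunit]
      exact (MulEquiv.irreducible_iff eA).2 hC.irred
    · -- smooth
      intro q hq hqF
      rw [map_mul, eval_C, eval_th] at hqF
      have h1 : eval (fun i => ∑ j, A i j * q j) F = 0 := by
        rcases mul_eq_zero.1 hqF with h | h
        · exact absurd h hu0
        · exact h
      have h2 : (fun i => ∑ j, A i j * q j) ≠ 0 := by
        intro h0
        apply hq
        funext i
        have := comb_inv hBA q i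
        simp only [smul_eq_mul] at this
        have h3 : ∀ j, ∑ k, A j k * q k = 0 := fun j => congrFun h0 j
        simp_rw [h3] at this
        rw [← this]; simp
      obtain ⟨i, hi⟩ := hC.smooth _ h2 h1
      by_contra hcon
      push Not at hcon
      apply hi
      have h4 : ∀ j, ∑ i, A i j * eval (fun i => ∑ j, A i j * q j) (pderiv i F) = 0 := by
        intro j
        have h5 := hcon j
        rw [hpd, map_mul, eval_C, map_sum] at h5
        rcases mul_eq_zero.1 h5 with h | h
        · exact absurd h hu0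
        · rw [← h]
          refine Finset.sum_congr rfl fun i _ => ?_
          rw [map_mul, eval_C, eval_th]
      have hT : B.transpose * A.transpose = 1 := by
        rw [← Matrix.transpose_mul, hAB, Matrix.transpose_one]
      have h6 := comb_inv hT (fun i => eval (fun i => ∑ j, A i j * q j) (pderiv i F)) i
      rw [← h6]
      refine Finset.sum_eq_zero fun j _ => ?_
      have h7 : ∑ k, A.transpose j k • eval (fun i => ∑ j, A i j * q j) (pderiv k F) = 0 := h4 j
      rw [h7, smul_zero]
    · -- zero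
      intro d G hG
      rw [hev, hC.zero d _ (th_hom hG), hunit.mul_left_dvd]
      constructor
      · intro h
        have := map_dvd (th A) h
        rwa [th_th hBA] at this
      · intro h
        have := map_dvd (th B) h
        rwa [th_th hAB] at this
    · -- gen
      set L := IntermediateField.adjoin ℂ {f : K | ∃ i j, f =
        (∑ k, B i k • c k) / (∑ k, B j k • c k)} with hL
      rw [eq_top_iff, ← hC.gen, IntermediateField.adjoin_le_iff]
      rintro f ⟨i, j, rfl⟩
      by_cases hz : ∀ l, ∑ k, B l k • c k = 0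
      · have : c i = 0 := by rw [← hc i]; simp [hz]
        rw [this, zero_div]; exact L.zero_mem
      · push Not at hz
        obtain ⟨l, hl⟩ := hz
        have h1 : ∀ i, c i / (∑ k, B l k • c k) ∈ L := by
          intro i
          have h2 : c i / (∑ k, B l k • c k) =
              ∑ j, A i j • ((∑ k, B j k • c k) / (∑ k, B l k • c k)) := by
            rw [← hc i]
            conv_rhs => simp only [div_eq_mul_inv, ← smul_mul_assoc]
            rw [← Finset.sum_mul, div_eq_mul_inv]
          rw [h2]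
          refine L.sum_mem fun j _ => L.smul_mem ?_
          exact IntermediateField.subset_adjoin _ _ ⟨j, l, rfl⟩
        have h3 : c i / c j = (c i / (∑ k, B l k • c k)) / (c j / (∑ k, B l k • c k)) := by
          rw [div_div_div_cancel_right₀ hl]
        rw [h3]
        exact L.div_mem (h1 i) (h1 j)
  · rw [map_mul, eval_C, eval_th]
    have h1 : (fun i => ∑ j, A i j * (![0, 0, 1] : Fin 3 → ℂ) j) = p := by
      funext i
      rw [Fin.sum_univ_three]
      simp [hA2]
    rw [h1]
    exact inv_mul_cancel₀ hp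
  · intro H hH v
    obtain ⟨h1, i, hi⟩ := hH v
    refine ⟨fun i => val_comb_le v B c h1 i, ?_⟩
    by_contra hcon
    push Not at hcon
    have h2 : ∀ j, v.val (∑ k, B j k • c k) < v.val (H.frame v : K) := fun j =>
      lt_of_le_of_ne (val_comb_le v B c h1 j) (hcon j)
    have h3 := val_comb_lt v A (fun j => ∑ k, B j k • c k)
      ((Valuation.ne_zero_iff _).2 (H.frame v).ne_zero) h2 i
    rw [hc i] at h3
    exact absurd hi h3.ne
  · intro t
    ext x
    constructor
    · rintro ⟨G, hG, rfl⟩
      exact ⟨th B G, th_hom hG, (hev G).symm⟩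
    · rintro ⟨G, hG, rfl⟩
      refine ⟨th A G, th_hom hG, ?_⟩
      show aeval (fun i => ∑ j, B i j • c j) (th A G) = aeval c G
      rw [hev, th_th hAB]
  · rw [hpd, map_mul, map_sum, ← algebraMap_eq, AlgHom.commutes, ← Algebra.smul_def, smul_smul,
      hu, mul_inv_cancel₀ hp, one_smul]
    refine Finset.sum_congr rfl fun i _ => ?_
    rw [map_mul, AlgHom.commutes, ← Algebra.smul_def, hA2, hev, th_th hAB]

end Pool.Agent.W52.PC
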