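import Pool.Agent.W518.PC.Stmts2
import Pool.Agent.W52.PC.Forms

/-! PC-N3 (MP_571cb2_ag) -/

set_option autoImplicit false

open MvPolynomial

namespace Pool.Agent.W52.PC

open Pool.Agent.W518.PC

theorem s_N3 : S_N3 := by
  classical
  intro δ F hδ hF hsm
  let I : Ideal (MvPolynomial (Fin 3) ℂ) := Ideal.span (Set.range fun i => pderiv i F)
  have hX : ∀ j : Fin 3, ∃ n : ℕ, (X j : MvPolynomial (Fin 3) ℂ) ^ n ∈ I := by
    intro j
    have h1 : (X j : MvPolynomial (Fin 3) ℂ) ∈ I.radical := by
      rw [← vanishingIdeal_zeroLocus_eq_radical (K := ℂ) I, mem_vanishingIdeal_iff]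
      intro p hp
      rw [mem_zeroLocus_iff] at hp
      have hp1 : ∀ i, eval p (pderiv i F) = 0 := by
        intro i
        have := hp _ (Ideal.subset_span ⟨i, rfl⟩)
        rwa [aeval_eq_eval] at this
      have hp0 : p = 0 := by
        by_contra hne
        have h2 := congrArg (eval p) hF.sum_X_mul_pderiv
        rw [map_sum, map_nsmul] at h2
        have h3 : ∑ i : Fin 3, eval p (X i * pderiv i F) = 0 := by
          refine Finset.sum_eq_zero fun i _ => ?_
          rw [map_mul, hp1 i, mul_zero]
        rw [h3] at h2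
        have h4 : eval p F = 0 := by
          have : (δ : ℂ) ≠ 0 := by
            have : δ ≠ 0 := by omega
            exact_mod_cast this
          rw [nsmul_eq_mul] at h2
          rcases mul_eq_zero.1 h2.symm with h | h
          · exact absurd h this
          · exact h
        obtain ⟨i, hi⟩ := hsm p hne h4
        exact hi (hp1 i)
      rw [hp0, aeval_X]; rfl
    exact h1
  choose n hn using hX
  refine ⟨n 0 + n 1 + n 2, fun G hG => ?_⟩
  have hGI : G ∈ I := by
    rw [G.as_sum]
    refine Ideal.sum_mem _ fun m hm => ?_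
    have hd : m.degree = n 0 + n 1 + n 2 + (δ - 1) := by
      rw [Finsupp.degree_eq_weight_one]; exact hG (mem_support_iff.1 hm)
    rw [Finsupp.degree_eq_sum, Fin.sum_univ_three] at hd
    obtain ⟨j, hj⟩ : ∃ j : Fin 3, n j ≤ m j := by
      by_contra hc
      push Not at hc
      have := hc 0; have := hc 1; have := hc 2
      omega
    have h5 : (X j : MvPolynomial (Fin 3) ℂ) ^ n j ∣ monomial m (coeff m G) := by
      rw [X_pow_eq_monomial]
      refine (monomial_dvd_monomial).2 ⟨Or.inr ?_, one_dvd _⟩
      rw [Finsupp.single_le_iff]; exact hj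
    exact I.mem_of_dvd h5 (hn j)
  rw [Ideal.mem_span_range_iff_exists_fun] at hGI
  obtain ⟨a, ha⟩ := hGI
  refine ⟨fun i => homogeneousComponent (n 0 + n 1 + n 2) (a i),
    fun i => homogeneousComponent_isHomogeneous _ _, ?_⟩
  conv_lhs => rw [← homogeneousComponent_eq_self hG, ← ha, map_sum]
  refine Finset.sum_congr rfl fun i _ => ?_
  rw [mul_comm (a i), Nat.add_comm _ (δ - 1), comp_mul (hF.pderiv), mul_comm]

end Pool.Agent.W52.PC
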