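import Pool.Agent.W518.PC.Stmts2
import Pool.Agent.W52.PC.Forms

/-! PC-N4 (MP_571cb2_ag) -/

set_option autoImplicit false

open MvPolynomial

namespace Pool.Agent.W52.PC

open Pool.Agent.W518.PC

/-- a form vanishing at `(0:0:1)` is in the ideal `(X 0, X 1)` -/
theorem mem_of_eval {Q : MvPolynomial (Fin 3) ℂ} {e : ℕ} (hQ : Q.IsHomogeneous e)
    (h : eval ![0, 0, 1] Q = 0) : ∃ Q₀ Q₁ : MvPolynomial (Fin 3) ℂ, Q = X 0 * Q₀ + X 1 * Q₁ := by
  classical
  have h1 : Q ∈ Ideal.span (X '' ({0, 1} : Set (Fin 3))) := by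
    rw [mem_ideal_span_X_image]
    intro m hm
    by_contra hc
    push Not at hc
    have m0 : m 0 = 0 := hc 0 (by simp)
    have m1 : m 1 = 0 := hc 1 (by simp)
    have hd : ∀ d ∈ Q.support, d 0 = 0 → d 1 = 0 → d = m := by
      intro d hd d0 d1
      have e1 := hQ (mem_support_iff.1 hd)
      have e2 := hQ (mem_support_iff.1 hm)
      have e3 : d.degree = e := by rw [Finsupp.degree_eq_weight_one]; exact e1
      have e4 : m.degree = e := by rw [Finsupp.degree_eq_weight_one]; exact e2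
      rw [Finsupp.degree_eq_sum, Fin.sum_univ_three] at e3 e4
      ext i
      fin_cases i
      · show d 0 = m 0; omega
      · show d 1 = m 1; omega
      · show d 2 = m 2; omega
    rw [eval_eq', Finset.sum_eq_single m] at h
    · rw [Fin.prod_univ_three, m0, m1] at h
      simp at h
      exact (mem_support_iff.1 hm) h
    · intro d hdm hne
      by_cases d0 : d 0 = 0
      · by_cases d1 : d 1 = 0
        · exact absurd (hd d hdm d0 d1) hne
        · rw [Fin.prod_univ_three]; simp [d1]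
      · rw [Fin.prod_univ_three]; simp [d0]
    · intro hc2; exact absurd hm hc2
  rw [Set.image_pair, Ideal.mem_span_pair] at h1
  obtain ⟨a, b, hab⟩ := h1
  exact ⟨a, b, by rw [← hab]; ring⟩

theorem X_dvd {A B : MvPolynomial (Fin 3) ℂ} (h : X 1 * A = X 0 * B) :
    ∃ A' : MvPolynomial (Fin 3) ℂ, A = X 0 * A' := by
  have hp : Prime (X 0 : MvPolynomial (Fin 3) ℂ) := X_prime
  have h1 : (X 0 : MvPolynomial (Fin 3) ℂ) ∣ X 1 * A := ⟨B, h⟩
  rcases hp.dvd_or_dvd h1 with h2 | h2
  · exact absurd ((X_dvd_X).1 h2) (by simp)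
  · exact h2

theorem s_N4 : S_N4 := by
  intro K _ _ δ F c hδ hC hF1 t φ h0 h1
  obtain ⟨A, hA, hA'⟩ := h0
  obtain ⟨B, hB, hB'⟩ := h1
  have hA1 : aeval c A = c 0 * φ := hA'
  have hB1 : aeval c B = c 1 * φ := hB'
  have hA2 : A.IsHomogeneous (t + 1) := hA
  have hB2 : B.IsHomogeneous (t + 1) := hB
  have hc0 : c 0 ≠ 0 := by
    intro hc
    have h2 : aeval c (X 0 : MvPolynomial (Fin 3) ℂ) = 0 := by rw [aeval_X]; exact hc
    have h3 := eq_zero_of_dvd hC.homog (isHomogeneous_X ℂ (0 : Fin 3)) (by omega)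
      ((hC.zero 1 _ (isHomogeneous_X ℂ (0 : Fin 3))).1 h2)
    exact X_ne_zero _ h3
  have hFc : aeval c F = 0 := (hC.zero δ F hC.homog).2 dvd_rfl
  have hD : (X 1 * A - X 0 * B).IsHomogeneous (t + 2) := by
    refine IsHomogeneous.sub ?_ ?_
    · have := (isHomogeneous_X ℂ (1 : Fin 3)).mul hA2
      rwa [show 1 + (t + 1) = t + 2 by omega] at this
    · have := (isHomogeneous_X ℂ (0 : Fin 3)).mul hB2
      rwa [show 1 + (t + 1) = t + 2 by omega] at this
  have hD0 : aeval c (X 1 * A - X 0 * B) = 0 := by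
    rw [map_sub, map_mul, map_mul, aeval_X, aeval_X, hA1, hB1]; ring
  have hdvd : F ∣ X 1 * A - X 0 * B := (hC.zero _ _ hD).1 hD0
  -- the decomposition
  obtain ⟨Q₀, Q₁, hQ⟩ : ∃ Q₀ Q₁ : MvPolynomial (Fin 3) ℂ,
      X 1 * A - X 0 * B = F * (X 0 * Q₀ + X 1 * Q₁) := by
    rcases Nat.lt_or_ge (t + 2) δ with hlt | hge
    · refine ⟨0, 0, ?_⟩
      rw [eq_zero_of_dvd hC.homog hD hlt hdvd]; simp
    · obtain ⟨Q, hQ, hQe⟩ := exists_form (b := t + 2 - δ) hC.homog
        (by rwa [show δ + (t + 2 - δ) = t + 2 by omega]) hdvd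
      have h5 : eval ![0, 0, 1] Q = 0 := by
        have h6 := congrArg (eval ![(0 : ℂ), 0, 1]) hQe
        rw [map_sub, map_mul, map_mul, map_mul, hF1, eval_X, eval_X] at h6
        simpa using h6.symm
      obtain ⟨Q₀, Q₁, h7⟩ := mem_of_eval hQ h5
      exact ⟨Q₀, Q₁, by rw [hQe, h7]⟩
  have h8 : X 1 * (A - F * Q₁) = X 0 * (B + F * Q₀) := by linear_combination hQ
  obtain ⟨A', hA'⟩ := X_dvd h8
  have h9 : A = F * Q₁ + X 0 * A' := by rw [← hA']; ring
  refine ⟨homogeneousComponent t A', homogeneousComponent_isHomogeneous t A', ?_⟩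
  show aeval c (homogeneousComponent t A') = φ
  have h10 : A = homogeneousComponent (t + 1) (F * Q₁) + X 0 * homogeneousComponent t A' := by
    conv_lhs => rw [← homogeneousComponent_eq_self hA2, h9, map_add]
    rw [show homogeneousComponent (t + 1) (X 0 * A') = X 0 * homogeneousComponent t A' by
      rw [← comp_mul (isHomogeneous_X ℂ (0 : Fin 3)), Nat.add_comm 1 t]]
  have h11 : aeval c (homogeneousComponent (t + 1) (F * Q₁)) = 0 := by
    rcases Nat.lt_or_ge (t + 1) δ with hlt | hge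
    · have : homogeneousComponent (t + 1) (F * Q₁) = 0 := by
        classical
        conv_lhs => rw [← sum_homogeneousComponent Q₁, Finset.mul_sum, map_sum]
        refine Finset.sum_eq_zero fun i _ => ?_
        have h1 : F * homogeneousComponent i Q₁ ∈ homogeneousSubmodule (Fin 3) ℂ (δ + i) :=
          hC.homog.mul (homogeneousComponent_isHomogeneous i Q₁)
        rw [homogeneousComponent_of_mem h1, if_neg (by omega)]
      rw [this, map_zero]
    · have : homogeneousComponent (t + 1) (F * Q₁) =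
          F * homogeneousComponent (t + 1 - δ) Q₁ := by
        rw [← comp_mul hC.homog, show δ + (t + 1 - δ) = t + 1 by omega]
      rw [this, map_mul, hFc, zero_mul]
  have h12 : c 0 * φ = c 0 * aeval c (homogeneousComponent t A') := by
    rw [← hA1]
    conv_lhs => rw [h10]
    rw [map_add, h11, map_mul, aeval_X, zero_add]
  exact (mul_left_cancel₀ hc0 h12).symm

end Pool.Agent.W52.PC
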