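import Pool.Agent.W518.PC.Stmts2
import Pool.Agent.W52.PC.Forms

/-! PC-N5 (MP_571cb2_ag): normality -/

set_option autoImplicit false

open MvPolynomial

namespace Pool.Agent.W52.PC

open Pool.Agent.W518.PC Pool.Agent.Helper395.CS Pool.Agent.Helper395.BC

theorem SS_mul {K : Type} [Field K] [Algebra ℂ K] {c : Fin 3 → K} {a b : ℕ}
    {A : MvPolynomial (Fin 3) ℂ} (hA : A.IsHomogeneous a) {x : K} (hx : x ∈ SS c b) :
    aeval c A * x ∈ SS c (a + b) := by
  obtain ⟨G, hG, rfl⟩ := hx
  refine ⟨A * G, hA.mul hG, ?_⟩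
  show aeval c (A * G) = _
  rw [map_mul]; rfl

/-- a nonzero value along a line -/
theorem exists_ne {F : MvPolynomial (Fin 3) ℂ} (hF : eval ![0, 0, 1] F = 1) (d : Fin 3 → ℂ) :
    ∃ s : ℂ, s ≠ 0 ∧ eval (fun i => (![0, 0, 1] : Fin 3 → ℂ) i + s * d i) F ≠ 0 := by
  let P : Polynomial ℂ :=
    aeval (fun i => Polynomial.C ((![0, 0, 1] : Fin 3 → ℂ) i) + Polynomial.X * Polynomial.C (d i)) F
  have hP : ∀ s, P.eval s = eval (fun i => (![0, 0, 1] : Fin 3 → ℂ) i + s * d i) F := by
    intro s
    have : (Polynomial.aeval s : Polynomial ℂ →ₐ[ℂ] ℂ).comp (aeval (fun i =>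
        Polynomial.C ((![0, 0, 1] : Fin 3 → ℂ) i) + Polynomial.X * Polynomial.C (d i))) =
        aeval (fun i => (![0, 0, 1] : Fin 3 → ℂ) i + s * d i) := by
      apply MvPolynomial.algHom_ext
      intro i
      rw [AlgHom.comp_apply, aeval_X, aeval_X]
      simp
      ring
    have h2 := DFunLike.congr_fun this F
    rw [AlgHom.comp_apply, aeval_eq_eval] at h2
    rw [← h2]
    rw [Polynomial.coe_aeval_eq_eval]
  have hP0 : P ≠ 0 := by
    intro h0
    have h1 := hP 0
    rw [h0, Polynomial.eval_zero] at h1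
    have h2 : (fun i => (![0, 0, 1] : Fin 3 → ℂ) i + 0 * d i) = ![0, 0, 1] := by
      funext i; simp
    rw [h2, hF] at h1
    exact one_ne_zero h1.symm
  obtain ⟨s, hs⟩ := (Set.Finite.infinite_compl
    ((P.roots.toFinset.finite_toSet).union (Set.finite_singleton (0 : ℂ)))).nonempty
  simp only [Set.mem_compl_iff, Set.mem_union, Finset.mem_coe, Multiset.mem_toFinset,
    Set.mem_singleton_iff, not_or] at hs
  refine ⟨s, hs.2, ?_⟩
  rw [← hP]
  intro h
  exact hs.1 ((Polynomial.mem_roots hP0).2 h)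

theorem s_N5 : S_N5 := by
  intro h0 h2 h3 h4 K _ _ hK δ F c H hδ hC hF1 hH t
  have hfr : ∀ v : Point K, v.val (H.frame v : K) ≠ 0 := fun v =>
    (Valuation.ne_zero_iff _).2 (H.frame v).ne_zero
  apply le_antisymm
  · intro f hf
    -- the three partial derivatives
    have key : ∀ p : Fin 3 → ℂ, eval p F ≠ 0 →
        (∑ i, p i • aeval c (pderiv i F)) * f ∈ SS c (t + δ - 1) := by
      intro p hp
      obtain ⟨F', c', hC', hF1', hH', hSS, hsum⟩ := h0 K δ F c hδ hC p hp
      have h5 := h2 K hK δ F' c' H hδ hC' hF1' (hH' H hH) t f hf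
      rw [hSS] at h5
      rw [hsum, smul_mul_assoc]
      exact (SS c (t + δ - 1)).smul_mem _ h5
    have k2 : aeval c (pderiv 2 F) * f ∈ SS c (t + δ - 1) := h2 K hK δ F c H hδ hC hF1 hH t f hf
    have kk : ∀ j : Fin 3, j ≠ 2 → aeval c (pderiv j F) * f ∈ SS c (t + δ - 1) := by
      intro j hj
      obtain ⟨s, hs, hs2⟩ := exists_ne hF1 (Pi.single j 1)
      have h6 := key _ hs2
      have h7 : ∑ i, ((![0, 0, 1] : Fin 3 → ℂ) i + s * (Pi.single j 1 : Fin 3 → ℂ) i) •
          aeval c (pderiv i F) = aeval c (pderiv 2 F) + s • aeval c (pderiv j F) := by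
        simp_rw [add_smul]
        rw [Finset.sum_add_distrib]
        congr 1
        · rw [Fin.sum_univ_three]; simp
        · rw [Finset.sum_eq_single j]
          · simp
          · intro i _ hi
            rw [Pi.single_eq_of_ne hi]; simp
          · simp
      rw [h7, add_mul] at h6
      have h8 := (SS c (t + δ - 1)).sub_mem h6 k2
      rw [add_sub_cancel_left, smul_mul_assoc] at h8
      have h9 := (SS c (t + δ - 1)).smul_mem s⁻¹ h8
      rwa [smul_smul, inv_mul_cancel₀ hs, one_smul] at h9
    have kall : ∀ j : Fin 3, aeval c (pderiv j F) * f ∈ SS c (t + δ - 1) := by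
      intro j
      by_cases hj : j = 2
      · subst hj; exact k2
      · exact kk j hj
    obtain ⟨N, hN⟩ := h3 δ F hδ hC.homog hC.smooth
    have hbig : ∀ G : MvPolynomial (Fin 3) ℂ, G.IsHomogeneous (N + (δ - 1)) →
        aeval c G * f ∈ SS c (t + (N + (δ - 1))) := by
      intro G hG
      obtain ⟨A, hA, hGe⟩ := hN G hG
      rw [hGe, map_sum, Finset.sum_mul]
      refine Submodule.sum_mem _ fun i _ => ?_
      have := SS_mul (hA i) (kall i)
      rw [show N + (t + δ - 1) = t + (N + (δ - 1)) by omega] at this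
      rwa [map_mul, mul_assoc]
    have hdesc : ∀ m k : ℕ, m + k = N + (δ - 1) → ∀ G : MvPolynomial (Fin 3) ℂ,
        G.IsHomogeneous k → aeval c G * f ∈ SS c (t + k) := by
      intro m
      induction m with
      | zero =>
        intro k hk G hG
        rw [zero_add] at hk
        subst hk
        exact hbig G hG
      | succ m ih =>
        intro k hk G hG
        apply h4 K δ F c hδ hC hF1
        · have := ih (k + 1) (by omega) (X 0 * G) (by
            have := (isHomogeneous_X ℂ (0 : Fin 3)).mul hG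
            rwa [Nat.add_comm] at this)
          rwa [map_mul, aeval_X, mul_assoc, ← add_assoc] at this
        · have := ih (k + 1) (by omega) (X 1 * G) (by
            have := (isHomogeneous_X ℂ (1 : Fin 3)).mul hG
            rwa [Nat.add_comm] at this)
          rwa [map_mul, aeval_X, mul_assoc, ← add_assoc] at this
    have := hdesc (N + (δ - 1)) 0 (by omega) 1 (isHomogeneous_one _ _)
    rwa [map_one, one_mul, add_zero] at this
  · rintro _ ⟨G, hG, rfl⟩ v
    show v.val (aeval c G) ≤ v.val ((lpow H t).frame v : K)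
    have e1 : v.val ((lpow H t).frame v : K) = v.val (H.frame v : K) ^ t := by
      show v.val ((H.frame v ^ (t : ℤ) : Kˣ) : K) = _
      rw [zpow_natCast, Units.val_pow_eq_pow_val, map_pow]
    rw [e1, aeval_def, eval₂_eq']
    refine v.val.map_sum_le fun m hm => ?_
    rw [map_mul]
    have h5 : v.val (algebraMap ℂ K (coeff m G)) ≤ 1 := (v.const _ (mem_support_iff.1 hm)).le
    have h6 : v.val (∏ i, c i ^ m i) ≤ v.val (H.frame v : K) ^ t := by
      rw [map_prod]
      have h7 : t = ∑ i, m i := by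
        have e4 : m.degree = t := by
          rw [Finsupp.degree_eq_weight_one]; exact hG (mem_support_iff.1 hm)
        rw [← e4, Finsupp.degree_eq_sum]
      rw [h7, ← Finset.prod_pow_eq_pow_sum]
      refine Finset.prod_le_prod' fun i _ => ?_
      rw [map_pow]
      exact pow_le_pow_left' ((hH v).1 i) _
    calc _ ≤ 1 * v.val (H.frame v : K) ^ t := mul_le_mul' h5 h6
      _ = _ := one_mul _

end Pool.Agent.W52.PC
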