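import Pool.Agent.W518.PC.Stmts2
import Pool.Agent.W52.PC.Forms

/-! PC-N6 (MP_571cb2_ag) -/

set_option autoImplicit false

open MvPolynomial

namespace Pool.Agent.W52.PC

open Pool.Agent.W518.PC

theorem s_N6 : S_N6 := by
  intro K _ _ δ F c hC t ht
  have hF0 : F ≠ 0 := hC.irred.ne_zero
  obtain ⟨e1, f1⟩ := finrank_forms ℂ t
  obtain ⟨e2, f2⟩ := finrank_forms ℂ (t - δ)
  let V := homogeneousSubmodule (Fin 3) ℂ t
  let W := homogeneousSubmodule (Fin 3) ℂ (t - δ)
  let φ : V →ₗ[ℂ] K := (aeval c).toLinearMap ∘ₗ V.subtype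
  have hr : LinearMap.range φ = SS c t := by
    rw [LinearMap.range_comp, Submodule.range_subtype]; rfl
  have hmul : ∀ Q ∈ W, F * Q ∈ V := by
    intro Q hQ
    have : F * Q ∈ homogeneousSubmodule (Fin 3) ℂ (δ + (t - δ)) := hC.homog.mul hQ
    rwa [show δ + (t - δ) = t by omega] at this
  let μ : W →ₗ[ℂ] V :=
    { toFun := fun Q => ⟨F * Q.1, hmul Q.1 Q.2⟩
      map_add' := fun p q => Subtype.ext (mul_add _ _ _)
      map_smul' := fun a p => Subtype.ext (by simp) }
  have hinj : Function.Injective μ := by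
    intro p q h
    have h1 : F * p.1 = F * q.1 := congrArg Subtype.val h
    exact Subtype.ext (mul_left_cancel₀ hF0 h1)
  have hk : LinearMap.range μ = LinearMap.ker φ := by
    ext G
    constructor
    · rintro ⟨Q, rfl⟩
      rw [LinearMap.mem_ker]
      show aeval c (F * Q.1) = 0
      rw [(hC.zero t _ (hmul Q.1 Q.2))]
      exact dvd_mul_right _ _
    · intro hG
      rw [LinearMap.mem_ker] at hG
      have h1 : F ∣ G.1 := (hC.zero t G.1 G.2).1 hG
      have h2 : G.1.IsHomogeneous (δ + (t - δ)) := by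
        rw [show δ + (t - δ) = t by omega]; exact G.2
      obtain ⟨Q, hQ, h3⟩ := exists_form hC.homog h2 h1
      exact ⟨⟨Q, hQ⟩, Subtype.ext h3.symm⟩
  have h4 := LinearMap.finrank_range_add_finrank_ker φ
  rw [hr, ← hk, LinearMap.finrank_range_of_inj hinj, e1, e2] at h4
  exact h4

end Pool.Agent.W52.PC
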